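import Pool.Agent.V11232.RC.Snd

/-!
Completeness.
-/

set_option autoImplicit false

namespace Pool.Agent.V11232.RC

open Relation

section

variable {T N ι : Type} {M : ℕ} {l r : ι → List (Symbol T N)} {S : N} [Finite T] [Finite N]
  [Finite ι]

/-- derivations -/
abbrev Dv (M : ℕ) (l r : ι → List (Symbol T N)) (S : N) (α β : List (Symbol T (NN T N ι M))) :
    Prop := ReflTransGen (OS (M := M) l r S) α β

/-- a rule of the control symbol without left conditions -/
theorem Dv.ofL {A : NN T N ι M} {z : List (Symbol T (NN T N ι M))} (h : LR l r S A z ∅ ∅)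
    (b : List (Symbol T (NN T N ι M))) : Dv M l r S (nt A :: b) (z ++ b) :=
  ReflTransGen.single ⟨[], b, A, z, ∅, ∅, rfl, rfl, Or.inl ⟨h, by simp, by simp⟩⟩

theorem Dv.move (q q' : St ι M) (Y : Symbol T N) (h : De l q Y q') (c : Bool)
    (u v : List (Symbol T N)) :
    Dv M l r S (nt (.C q c) :: (cl ι M (!c) u ++ cl ι M c (Y :: v)))
      (nt (.C q' c) :: (cl ι M (!c) (u ++ out r q Y q') ++ cl ι M c v)) := by
  have h1 : Dv M l r S (nt (.C q c) :: (cl ι M (!c) u ++ cl ι M c (Y :: v)))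
      (nt (.G q Y q' c) :: (cl ι M (!c) u ++ cl ι M c (Y :: v))) :=
    Dv.ofL (.guess q Y q' c h) _
  have h2 : Dv M l r S (nt (.G q Y q' c) :: (cl ι M (!c) u ++ cl ι M c (Y :: v)))
      (nt (.G q Y q' c) :: (cl ι M (!c) u ++ nt .D ::
        (cl ι M (!c) (out r q Y q') ++ cl ι M c v))) := by
    refine ReflTransGen.single ⟨nt (.G q Y q' c) :: cl ι M (!c) u, cl ι M c v, .X Y c,
      nt .D :: cl ι M (!c) (out r q Y q'), {.G q Y q' c}, Wc T N ι M c, ?_, ?_,
      Or.inl ⟨.rew q Y q' c, ?_, ?_⟩⟩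
    · simp [cl]
    · simp
    · intro B hB
      rw [Finset.mem_singleton] at hB
      rw [hB]; simp
    · intro B hB hm
      rcases mem_Wc.1 hB with rfl | ⟨Z, rfl⟩
      · rcases List.mem_cons.1 hm with h | h
        · simp at h
        · exact D_notMem_cl _ _ h
      · rcases List.mem_cons.1 hm with h | h
        · simp at h
        · obtain ⟨Z', hZ'⟩ := mem_cl h
          exact ne_of_col hZ'.symm
  have h3 : Dv M l r S (nt (.G q Y q' c) :: (cl ι M (!c) u ++ nt .D ::
        (cl ι M (!c) (out r q Y q') ++ cl ι M c v)))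
      (nt (.E q' c) :: (cl ι M (!c) u ++ nt .D ::
        (cl ι M (!c) (out r q Y q') ++ cl ι M c v))) := by
    refine ReflTransGen.single ⟨[], _, .G q Y q' c, [nt (.E q' c)], {.D}, ∅, rfl, rfl,
      Or.inr ⟨.hand q Y q' c, ?_, by simp⟩⟩
    intro B hB
    rw [Finset.mem_singleton] at hB
    rw [hB]; simp
  have h4 : Dv M l r S (nt (.E q' c) :: (cl ι M (!c) u ++ nt .D ::
        (cl ι M (!c) (out r q Y q') ++ cl ι M c v)))
      (nt (.E q' c) :: (cl ι M (!c) (u ++ out r q Y q') ++ cl ι M c v)) := by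
    refine ReflTransGen.single ⟨nt (.E q' c) :: cl ι M (!c) u,
      cl ι M (!c) (out r q Y q') ++ cl ι M c v, .D, [], {.E q' c}, ∅, ?_, ?_,
      Or.inl ⟨.del q' c, ?_, by simp⟩⟩
    · simp
    · simp [cl]
    · intro B hB
      rw [Finset.mem_singleton] at hB
      rw [hB]; simp
  have h5 : Dv M l r S (nt (.E q' c) :: (cl ι M (!c) (u ++ out r q Y q') ++ cl ι M c v))
      (nt (.C q' c) :: (cl ι M (!c) (u ++ out r q Y q') ++ cl ι M c v)) := by
    refine ReflTransGen.single ⟨[], _, .E q' c, [nt (.C q' c)], ∅, {.D}, rfl, rfl,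
      Or.inr ⟨.back q' c, by simp, ?_⟩⟩
    intro B hB
    rw [Finset.mem_singleton] at hB
    rw [hB]
    intro hm
    rcases List.mem_append.1 hm with h | h
    · exact D_notMem_cl _ _ h
    · exact D_notMem_cl _ _ h
  exact (((h1.trans h2).trans h3).trans h4).trans h5

theorem Dv.idle (c : Bool) (x u v : List (Symbol T N)) :
    Dv M l r S (nt (.C .idle c) :: (cl ι M (!c) u ++ cl ι M c (x ++ v)))
      (nt (.C .idle c) :: (cl ι M (!c) (u ++ x) ++ cl ι M c v)) := by
  induction x generalizing u with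
  | nil => simpa using (ReflTransGen.refl : Dv M l r S _ _)
  | cons Y x ih =>
    refine (Dv.move .idle .idle Y (.ci Y) c u (x ++ v)).trans ?_
    have := ih (u ++ [Y])
    simpa [out] using this

theorem Dv.fin (c : Bool) (x u v : List (Symbol T N)) :
    Dv M l r S (nt (.C .fin c) :: (cl ι M (!c) u ++ cl ι M c (x ++ v)))
      (nt (.C .fin c) :: (cl ι M (!c) (u ++ x) ++ cl ι M c v)) := by
  induction x generalizing u with
  | nil => simpa using (ReflTransGen.refl : Dv M l r S _ _)
  | cons Y x ih =>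
    refine (Dv.move .fin .fin Y (.cf Y) c u (x ++ v)).trans ?_
    have := ih (u ++ [Y])
    simpa [out] using this

theorem Dv.mid (i : ι) (hM : (l i).length < M) (c : Bool) (u v : List (Symbol T N)) (n : ℕ) :
    ∀ j : Fin M, (j : ℕ) + (n + 1) = (l i).length →
    Dv M l r S (nt (.C (.mid i j) c) :: (cl ι M (!c) u ++ cl ι M c ((l i).drop j ++ v)))
      (nt (.C .fin c) :: (cl ι M (!c) (u ++ r i) ++ cl ι M c v)) := by
  induction n with
  | zero =>
    intro j hj
    have hlt : (j : ℕ) < (l i).length := by omega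
    have e : (l i).drop j = [(l i)[(j : ℕ)]] := by
      rw [List.drop_eq_getElem_cons hlt, List.drop_eq_nil_of_le (by omega)]
    rw [e]
    have := Dv.move (r := r) (S := S) (.mid i j) .fin (l i)[(j : ℕ)]
      (.la i j _ (List.getElem?_eq_getElem hlt) (by omega)) c u v
    simpa [out] using this
  | succ n ih =>
    intro j hj
    have hlt : (j : ℕ) < (l i).length := by omega
    have e : (l i).drop j = (l i)[(j : ℕ)] :: (l i).drop (j + 1) :=
      List.drop_eq_getElem_cons hlt
    rw [e]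
    have h1 := Dv.move (r := r) (S := S) (.mid i j) (.mid i ⟨(j : ℕ) + 1, by omega⟩) (l i)[(j : ℕ)]
      (.st i j ⟨(j : ℕ) + 1, by omega⟩ _ (List.getElem?_eq_getElem hlt) rfl (by omega)) c u
      ((l i).drop ((j : ℕ) + 1) ++ v)
    have h2 := ih ⟨(j : ℕ) + 1, by omega⟩ (by simp only; omega)
    refine ReflTransGen.trans ?_ h2
    simp only [out, List.append_nil] at h1
    rw [List.cons_append]
    exact h1

theorem Dv.pass (hl : ∀ i, l i ≠ []) (hM : ∀ i, (l i).length < M) {w w' : List (Symbol T N)}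
    (h : S0 l r w w') (c : Bool) :
    Dv M l r S (nt (.C .idle c) :: cl ι M c w) (nt (.C .idle (!c)) :: cl ι M (!c) w') := by
  obtain ⟨i, x, y, rfl, rfl⟩ := h
  have h1 := Dv.idle (M := M) (l := l) (r := r) (S := S) c x [] (l i ++ y)
  have hM' := hM i
  have hpos : 0 < (l i).length := List.length_pos_iff.2 (hl i)
  have h2 : Dv M l r S (nt (.C .idle c) :: (cl ι M (!c) x ++ cl ι M c (l i ++ y)))
      (nt (.C (.mid i ⟨0, by omega⟩) c) :: (cl ι M (!c) x ++ cl ι M c (l i ++ y))) :=
    Dv.ofL (.jump i ⟨0, by omega⟩ c rfl) _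
  have h3 := Dv.mid (M := M) (l := l) (r := r) (S := S) i hM' c x y ((l i).length - 1)
    ⟨0, by omega⟩ (by simp only; omega)
  have h4 := Dv.fin (M := M) (l := l) (r := r) (S := S) c y (x ++ r i) []
  have h5 : Dv M l r S (nt (.C .fin c) :: (cl ι M (!c) (x ++ r i ++ y) ++ cl ι M c []))
      (nt (.C .idle (!c)) :: (cl ι M (!c) (x ++ r i ++ y) ++ cl ι M c [])) := by
    refine ReflTransGen.single ⟨[], _, .C .fin c, [nt (.C .idle (!c))], ∅, Xc T N ι M c, rfl, rfl,
      Or.inr ⟨.swap c, by simp, ?_⟩⟩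
    intro B hB hm
    obtain ⟨Z, rfl⟩ := mem_Xc.1 hB
    rcases List.mem_append.1 hm with h | h
    · obtain ⟨Z', hZ'⟩ := mem_cl h
      exact ne_of_col hZ'.symm
    · simp [cl] at h
  have e3 : (l i).drop ((⟨0, by omega⟩ : Fin M) : ℕ) = l i := rfl
  rw [e3] at h3
  rw [List.append_nil] at h4
  have e1 : (nt (.C .idle c) :: cl ι M c (x ++ l i ++ y) : List (Symbol T (NN T N ι M))) =
      nt (.C .idle c) :: (cl ι M (!c) [] ++ cl ι M c (x ++ (l i ++ y))) := by simp [cl]
  have e2 : (nt (.C .idle (!c)) :: cl ι M (!c) (x ++ r i ++ y) :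
      List (Symbol T (NN T N ι M))) =
      nt (.C .idle (!c)) :: (cl ι M (!c) (x ++ r i ++ y) ++ cl ι M c []) := by simp [cl]
  rw [e1, e2]
  rw [List.nil_append] at h1
  exact (((h1.trans h2).trans h3).trans h4).trans h5

theorem Dv.term (c : Bool) (w v : List T) :
    Dv M l r S (nt .F :: (v.map Symbol.terminal ++ cl ι M c (w.map Symbol.terminal)))
      (nt .F :: ((v ++ w).map Symbol.terminal)) := by
  induction w generalizing v with
  | nil =>
    have e : (v.map Symbol.terminal ++ cl ι M c (([] : List T).map Symbol.terminal) :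
        List (Symbol T (NN T N ι M))) = (v ++ []).map Symbol.terminal := by simp [cl]
    rw [e]
  | cons a w ih =>
    have h1 : Dv M l r S
        (nt .F :: (v.map Symbol.terminal ++ cl ι M c ((a :: w).map Symbol.terminal)))
        (nt .F :: ((v ++ [a]).map Symbol.terminal ++ cl ι M c (w.map Symbol.terminal))) := by
      refine ReflTransGen.single ⟨nt .F :: v.map Symbol.terminal,
        cl ι M c (w.map Symbol.terminal), .X (.terminal a) c, [.terminal a], {.F}, ∅, ?_, ?_,
        Or.inl ⟨.ter a c, ?_, by simp⟩⟩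
      · simp [cl]
      · simp
      · intro B hB
        rw [Finset.mem_singleton] at hB
        rw [hB]; simp
    refine h1.trans ?_
    have := ih (v ++ [a])
    simpa using this

theorem complete (hl : ∀ i, l i ≠ []) (hM : ∀ i, (l i).length < M) {w : List T}
    (h : Re l r S (w.map Symbol.terminal)) :
    ReflTransGen (OS (M := M) l r S) [nt .S] (w.map Symbol.terminal) := by
  have h1 : ∀ α, ReflTransGen (S0 l r) [Symbol.nonterminal S] α →
      ∃ c, Dv M l r S [nt .S] (nt (.C .idle c) :: cl ι M c α) := by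
    intro α hα
    induction hα with
    | refl =>
      refine ⟨false, ?_⟩
      have := Dv.ofL (M := M) (l := l) (r := r) (S := S) .start []
      simpa [cl] using this
    | tail _ h ih =>
      obtain ⟨c, hc⟩ := ih
      exact ⟨!c, hc.trans (Dv.pass hl hM h c)⟩
  obtain ⟨c, hc⟩ := h1 _ h
  have h2 : Dv M l r S (nt (.C .idle c) :: cl ι M c (w.map Symbol.terminal))
      (nt .F :: cl ι M c (w.map Symbol.terminal)) := Dv.ofL (.toF c) _
  have h3 := Dv.term (M := M) (l := l) (r := r) (S := S) c w []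
  have h4 : Dv M l r S (nt .F :: (([] ++ w).map Symbol.terminal)) (w.map Symbol.terminal) := by
    have := Dv.ofL (M := M) (l := l) (r := r) (S := S) .endF (w.map Symbol.terminal)
    simpa using this
  rw [List.map_nil, List.nil_append] at h3
  exact ((hc.trans h2).trans h3).trans h4

/-- The language of an unrestricted grammar is generated by a one-sided random context grammar. -/
theorem exists_osrc (T N : Type) [Finite T] [Finite N] (S : N)
    (P : Set (List (Symbol T N) × List (Symbol T N))) (hP : P.Finite) (hne : ∀ ρ ∈ P, ρ.1 ≠ []) :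
    ∃ (N' : Type) (_ : Finite N') (S' : N')
      (PL PR : Finset (N' × List (Symbol T N') × Finset N' × Finset N')), ∀ w : List T,
      (ReflTransGen (fun α β => ∃ x y, ∃ ρ ∈ P, α = x ++ ρ.1 ++ y ∧ β = x ++ ρ.2 ++ y)
        [Symbol.nonterminal S] (w.map Symbol.terminal) ↔
      ReflTransGen (fun (α β : List (Symbol T N')) =>
            ∃ (u v : List (Symbol T N')) (A : N') (x : List (Symbol T N')) (U W : Finset N'),
              α = u ++ [Symbol.nonterminal A] ++ v ∧ β = u ++ x ++ v ∧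
              (((A, x, U, W) ∈ PL ∧ (∀ B ∈ U, Symbol.nonterminal B ∈ u) ∧
                  (∀ B ∈ W, Symbol.nonterminal B ∉ u)) ∨
               ((A, x, U, W) ∈ PR ∧ (∀ B ∈ U, Symbol.nonterminal B ∈ v) ∧
                  (∀ B ∈ W, Symbol.nonterminal B ∉ v))))
          [Symbol.nonterminal S'] (w.map Symbol.terminal)) := by
  have : Finite {ρ // ρ ∈ P} := hP
  let l : {ρ // ρ ∈ P} → List (Symbol T N) := fun ρ => ρ.1.1
  let r : {ρ // ρ ∈ P} → List (Symbol T N) := fun ρ => ρ.1.2
  obtain ⟨B, hB⟩ := (Set.finite_range (fun i => (l i).length)).bddAbove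
  have hM : ∀ i, (l i).length < B + 1 := fun i => Nat.lt_succ_of_le (hB ⟨i, rfl⟩)
  refine ⟨NN T N {ρ // ρ ∈ P} (B + 1), inferInstance, .S, (LR_finite l r S).toFinset,
    (RR_finite (T := T) (N := N) (ι := {ρ // ρ ∈ P}) (M := B + 1)).toFinset, fun w => ?_⟩
  have e1 : (fun α β => ∃ x y, ∃ ρ ∈ P, α = x ++ ρ.1 ++ y ∧ β = x ++ ρ.2 ++ y) = S0 l r := by
    funext α β
    apply propext
    constructor
    · rintro ⟨x, y, ρ, hρ, h1, h2⟩
      exact ⟨⟨ρ, hρ⟩, x, y, h1, h2⟩
    · rintro ⟨ρ, x, y, h1, h2⟩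
      exact ⟨x, y, ρ.1, ρ.2, h1, h2⟩
  have e2 : (fun (α β : List (Symbol T (NN T N {ρ // ρ ∈ P} (B + 1)))) =>
      ∃ (u v : List (Symbol T (NN T N {ρ // ρ ∈ P} (B + 1)))) (A : NN T N {ρ // ρ ∈ P} (B + 1))
        (x : List (Symbol T (NN T N {ρ // ρ ∈ P} (B + 1))))
        (U W : Finset (NN T N {ρ // ρ ∈ P} (B + 1))),
        α = u ++ [Symbol.nonterminal A] ++ v ∧ β = u ++ x ++ v ∧
          (((A, x, U, W) ∈ (LR_finite l r S).toFinset ∧ (∀ B ∈ U, Symbol.nonterminal B ∈ u) ∧
            (∀ B ∈ W, Symbol.nonterminal B ∉ u)) ∨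
          ((A, x, U, W) ∈ (RR_finite (T := T) (N := N) (ι := {ρ // ρ ∈ P})
            (M := B + 1)).toFinset ∧ (∀ B ∈ U, Symbol.nonterminal B ∈ v) ∧
            (∀ B ∈ W, Symbol.nonterminal B ∉ v)))) = OS (M := B + 1) l r S := by
    funext α β
    apply propext
    simp only [Set.Finite.mem_toFinset, Set.mem_ofPred_eq]
    rfl
  rw [e1, e2]
  exact ⟨fun h => complete (fun i => hne _ i.2) hM h, fun h => sound h⟩

end

end Pool.Agent.V11232.RC
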