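import Mathlib

/-!
A one-sided random context grammar which simulates an unrestricted grammar.
-/

set_option autoImplicit false

namespace Pool.Agent.V11232.RC

open Relation

/-- control states -/
inductive St (ι : Type) (M : ℕ)
  | idle
  | fin
  | mid (i : ι) (j : Fin M)

/-- nonterminals of the simulating grammar -/
inductive NN (T N ι : Type) (M : ℕ)
  | S
  | C (q : St ι M) (c : Bool)
  | G (q : St ι M) (Y : Symbol T N) (q' : St ι M) (c : Bool)
  | E (q : St ι M) (c : Bool)
  | D
  | X (Y : Symbol T N) (c : Bool)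
  | F

instance {ι : Type} {M : ℕ} [Finite ι] : Finite (St ι M) := by
  refine Finite.of_injective (fun s : St ι M => match s with
    | .idle => (Sum.inl 0 : Fin 2 ⊕ (ι × Fin M))
    | .fin => Sum.inl 1
    | .mid i j => Sum.inr (i, j)) ?_
  intro a b h
  cases a <;> cases b <;> simp_all

instance {T N : Type} [Finite T] [Finite N] : Finite (Symbol T N) := by
  refine Finite.of_injective (fun s : Symbol T N => match s with
    | .terminal a => (Sum.inl a : T ⊕ N)
    | .nonterminal A => Sum.inr A) ?_
  intro a b h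
  cases a <;> cases b <;> simp_all

instance {T N ι : Type} {M : ℕ} [Finite T] [Finite N] [Finite ι] : Finite (NN T N ι M) := by
  refine Finite.of_injective (fun s : NN T N ι M => match s with
    | .S => (Sum.inl 0 : Fin 3 ⊕ ((St ι M × Bool) ⊕ ((St ι M × Symbol T N × St ι M × Bool) ⊕
        ((St ι M × Bool) ⊕ (Symbol T N × Bool)))))
    | .D => Sum.inl 1
    | .F => Sum.inl 2
    | .C q c => Sum.inr (.inl (q, c))
    | .G q Y q' c => Sum.inr (.inr (.inl (q, Y, q', c)))
    | .E q c => Sum.inr (.inr (.inr (.inl (q, c))))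
    | .X Y c => Sum.inr (.inr (.inr (.inr (Y, c))))) ?_
  intro a b h
  cases a <;> cases b <;> simp_all

section

variable {T N ι : Type} {M : ℕ} (l r : ι → List (Symbol T N)) (S : N)

/-- moves of the control -/
inductive De : St ι M → Symbol T N → St ι M → Prop
  | ci (Y : Symbol T N) : De .idle Y .idle
  | cf (Y : Symbol T N) : De .fin Y .fin
  | st (i : ι) (j j' : Fin M) (Y : Symbol T N) (h : (l i)[(j : ℕ)]? = some Y)
      (h1 : (j' : ℕ) = (j : ℕ) + 1) (h2 : (j : ℕ) + 1 < (l i).length) : De (.mid i j) Y (.mid i j')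
  | la (i : ι) (j : Fin M) (Y : Symbol T N) (h : (l i)[(j : ℕ)]? = some Y)
      (h2 : (j : ℕ) + 1 = (l i).length) : De (.mid i j) Y .fin

/-- output of a move -/
def out : St ι M → Symbol T N → St ι M → List (Symbol T N)
  | .idle, Y, _ => [Y]
  | .fin, Y, _ => [Y]
  | .mid i _, _, .fin => r i
  | .mid _ _, _, .idle => []
  | .mid _ _, _, .mid _ _ => []

/-- the part of the left side already consumed -/
def pend : St ι M → List (Symbol T N)
  | .idle => []
  | .fin => []
  | .mid i j => (l i).take j

/-- derivation steps of the unrestricted grammar -/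
def S0 (w w' : List (Symbol T N)) : Prop := ∃ i x y, w = x ++ l i ++ y ∧ w' = x ++ r i ++ y

/-- derivable words -/
def Re (w : List (Symbol T N)) : Prop := ReflTransGen (S0 l r) [Symbol.nonterminal S] w

theorem De.re {l r : ι → List (Symbol T N)} {S : N} {q q' : St ι M} {Y : Symbol T N}
    (h : De l q Y q') {u v : List (Symbol T N)} (hr : Re l r S (u ++ pend l q ++ Y :: v)) :
    Re l r S (u ++ out r q Y q' ++ pend l q' ++ v) := by
  cases h with
  | ci => simpa [pend, out] using hr
  | cf => simpa [pend, out] using hr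
  | st i j j' _ h h1 h2 =>
    have e : (l i).take ((j : ℕ) + 1) = (l i).take j ++ [Y] := by
      rw [List.take_add_one, h]; rfl
    simp only [pend, out, h1, e]
    simpa [pend] using hr
  | la i j _ h h2 =>
    have e : (l i).take j ++ [Y] = l i := by
      have : (l i).take ((j : ℕ) + 1) = (l i).take j ++ [Y] := by
        rw [List.take_add_one, h]; rfl
      rw [← this, h2, List.take_length]
    refine ReflTransGen.tail hr ⟨i, u, v, ?_, ?_⟩
    · conv_rhs => rw [← e]
      simp [pend]
    · simp [pend, out]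

/-- nonterminal of the simulating grammar as a symbol -/
abbrev nt (A : NN T N ι M) : Symbol T (NN T N ι M) := Symbol.nonterminal A

/-- coloured word -/
def cl (ι : Type) (M : ℕ) (c : Bool) (w : List (Symbol T N)) : List (Symbol T (NN T N ι M)) :=
  w.map fun Y => nt (.X Y c)

variable [Finite T] [Finite N] [Finite ι]

/-- all symbols of colour `c` -/
noncomputable def Xc (T N ι : Type) (M : ℕ) [Finite T] [Finite N] [Finite ι] (c : Bool) :
    Finset (NN T N ι M) := (Set.toFinite {B : NN T N ι M | ∃ Z, B = .X Z c}).toFinset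

/-- all symbols of colour `c` and the marker -/
noncomputable def Wc (T N ι : Type) (M : ℕ) [Finite T] [Finite N] [Finite ι] (c : Bool) :
    Finset (NN T N ι M) := (Set.toFinite {B : NN T N ι M | B = .D ∨ ∃ Z, B = .X Z c}).toFinset

theorem mem_Xc {c : Bool} {B : NN T N ι M} : B ∈ Xc T N ι M c ↔ ∃ Z, B = .X Z c := by
  unfold Xc
  rw [Set.Finite.mem_toFinset]
  rfl

theorem mem_Wc {c : Bool} {B : NN T N ι M} : B ∈ Wc T N ι M c ↔ B = .D ∨ ∃ Z, B = .X Z c := by
  unfold Wc
  rw [Set.Finite.mem_toFinset]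
  rfl

/-- the left rules -/
inductive LR : NN T N ι M → List (Symbol T (NN T N ι M)) → Finset (NN T N ι M) →
    Finset (NN T N ι M) → Prop
  | start : LR .S [nt (.C .idle false), nt (.X (.nonterminal S) false)] ∅ ∅
  | guess (q : St ι M) (Y : Symbol T N) (q' : St ι M) (c : Bool) (h : De l q Y q') :
      LR (.C q c) [nt (.G q Y q' c)] ∅ ∅
  | jump (i : ι) (j : Fin M) (c : Bool) (h : (j : ℕ) = 0) :
      LR (.C .idle c) [nt (.C (.mid i j) c)] ∅ ∅
  | rew (q : St ι M) (Y : Symbol T N) (q' : St ι M) (c : Bool) :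
      LR (.X Y c) (nt .D :: cl ι M (!c) (out r q Y q')) {.G q Y q' c} (Wc T N ι M c)
  | del (q : St ι M) (c : Bool) : LR .D [] {.E q c} ∅
  | toF (c : Bool) : LR (.C .idle c) [nt .F] ∅ ∅
  | ter (a : T) (c : Bool) : LR (.X (.terminal a) c) [.terminal a] {.F} ∅
  | endF : LR .F [] ∅ ∅

/-- the right rules -/
inductive RR : NN T N ι M → List (Symbol T (NN T N ι M)) → Finset (NN T N ι M) →
    Finset (NN T N ι M) → Prop
  | hand (q : St ι M) (Y : Symbol T N) (q' : St ι M) (c : Bool) :
      RR (.G q Y q' c) [nt (.E q' c)] {.D} ∅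
  | back (q : St ι M) (c : Bool) : RR (.E q c) [nt (.C q c)] ∅ {.D}
  | swap (c : Bool) : RR (.C .fin c) [nt (.C .idle (!c))] ∅ (Xc T N ι M c)

omit [Finite T] [Finite N] [Finite ι] in
theorem length_out (B : ℕ) (hB : ∀ i, (r i).length ≤ B) (q q' : St ι M) (Y : Symbol T N) :
    (out r q Y q').length ≤ B + 1 := by
  cases q with
  | idle => simp [out]
  | fin => simp [out]
  | mid i j =>
    cases q' with
    | fin => simp only [out]; exact (hB i).trans (Nat.le_succ _)
    | idle => simp [out]
    | mid i' j' => simp [out]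

theorem LR_finite : {ρ : NN T N ι M × List (Symbol T (NN T N ι M)) × Finset (NN T N ι M) ×
    Finset (NN T N ι M) | LR l r S ρ.1 ρ.2.1 ρ.2.2.1 ρ.2.2.2}.Finite := by
  obtain ⟨B, hB⟩ := (Set.finite_range (fun i => (r i).length)).bddAbove
  have hB' : ∀ i, (r i).length ≤ B := fun i => hB ⟨i, rfl⟩
  refine Set.Finite.subset (Set.finite_univ.prod ((List.finite_length_le
    (Symbol T (NN T N ι M)) (B + 2)).prod (Set.finite_univ.prod Set.finite_univ))) ?_
  rintro ⟨A, x, U, W⟩ h
  have h' : LR l r S A x U W := h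
  have : x.length ≤ B + 2 := by
    cases h' with
    | rew q Y q' c =>
      simp only [List.length_cons, cl, List.length_map]
      have := length_out r B hB' q q' Y
      omega
    | _ => simp
  simp only [Set.mem_prod, Set.mem_univ, true_and, and_true]
  exact this

theorem RR_finite : {ρ : NN T N ι M × List (Symbol T (NN T N ι M)) × Finset (NN T N ι M) ×
    Finset (NN T N ι M) | RR ρ.1 ρ.2.1 ρ.2.2.1 ρ.2.2.2}.Finite := by
  refine Set.Finite.subset (Set.finite_univ.prod ((List.finite_length_le
    (Symbol T (NN T N ι M)) 2).prod (Set.finite_univ.prod Set.finite_univ))) ?_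
  rintro ⟨A, x, U, W⟩ h
  have h' : RR A x U W := h
  have : x.length ≤ 2 := by
    cases h' <;> simp
  simp only [Set.mem_prod, Set.mem_univ, true_and, and_true]
  exact this

/-- derivation steps of the simulating grammar -/
def OS (α β : List (Symbol T (NN T N ι M))) : Prop :=
  ∃ (x y : List (Symbol T (NN T N ι M))) (A : NN T N ι M) (z : List (Symbol T (NN T N ι M)))
    (U W : Finset (NN T N ι M)), α = x ++ [nt A] ++ y ∧ β = x ++ z ++ y ∧
    ((LR l r S A z U W ∧ (∀ B ∈ U, nt B ∈ x) ∧ (∀ B ∈ W, nt B ∉ x)) ∨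
      (RR A z U W ∧ (∀ B ∈ U, nt B ∈ y) ∧ (∀ B ∈ W, nt B ∉ y)))

end

end Pool.Agent.V11232.RC
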