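import Pool.Agent.V11232.RC.Gram

/-!
Soundness.
-/

set_option autoImplicit false

namespace Pool.Agent.V11232.RC

open Relation

section

variable {T N ι : Type} {M : ℕ}

theorem first_uniq {α : Type*} (P : α → Prop) {x u v y : List α} {b : α}
    (hx : ∀ s ∈ x, ¬ P s) (hu : ∀ s ∈ u, ¬ P s) (hv : ∀ s ∈ v, P s) (hb : P b)
    (h : x ++ b :: y = u ++ v) : x = u ∧ b :: y = v := by
  induction x generalizing u with
  | nil =>
    cases u with
    | nil => exact ⟨rfl, h⟩
    | cons c u =>
      simp only [List.nil_append, List.cons_append, List.cons.injEq] at h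
      exact absurd hb (hu b (by rw [h.1]; simp))
  | cons a x ih =>
    cases u with
    | nil =>
      simp only [List.nil_append] at h
      exact absurd (hv a (by rw [← h]; simp)) (hx a (by simp))
    | cons c u =>
      simp only [List.cons_append, List.cons.injEq] at h
      obtain ⟨h1, h2⟩ := ih (fun s hs => hx s (by simp [hs])) (fun s hs => hu s (by simp [hs])) h.2
      exact ⟨by rw [h.1, h1], h2⟩

theorem before_mark {α : Type*} {x u z y : List α} {b d : α} (hx : d ∉ x) (hb : b ≠ d)
    (h : x ++ b :: y = u ++ d :: z) : b ∈ u := by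
  induction x generalizing u with
  | nil =>
    cases u with
    | nil =>
      simp only [List.nil_append, List.cons.injEq] at h
      exact absurd h.1 hb
    | cons c u =>
      simp only [List.nil_append, List.cons_append, List.cons.injEq] at h
      rw [h.1]; simp
  | cons a x ih =>
    cases u with
    | nil =>
      simp only [List.nil_append, List.cons_append, List.cons.injEq] at h
      exact absurd (by rw [h.1]; simp) hx
    | cons c u =>
      simp only [List.cons_append, List.cons.injEq] at h
      have := ih (fun hs => hx (by simp [hs])) h.2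
      simp [this]

theorem mark_uniq {α : Type*} {x u z y : List α} {d : α} (hu : d ∉ u) (hz : d ∉ z)
    (h : x ++ d :: y = u ++ d :: z) : x = u ∧ y = z := by
  induction x generalizing u with
  | nil =>
    cases u with
    | nil => simpa using h
    | cons c u =>
      simp only [List.nil_append, List.cons_append, List.cons.injEq] at h
      exact absurd (by rw [h.1]; simp) hu
  | cons a x ih =>
    cases u with
    | nil =>
      simp only [List.nil_append, List.cons_append, List.cons.injEq] at h
      exact absurd (by rw [← h.2]; simp) hz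
    | cons c u =>
      simp only [List.cons_append, List.cons.injEq] at h
      obtain ⟨h1, h2⟩ := ih (fun hs => hu (by simp [hs])) h.2
      exact ⟨by rw [h.1, h1], h2⟩

/-- no control symbol -/
def NC : Symbol T (NN T N ι M) → Prop
  | .terminal _ => True
  | .nonterminal .D => True
  | .nonterminal (.X _ _) => True
  | _ => False

/-- terminal or coloured symbol -/
def Ok : Symbol T (NN T N ι M) → Prop
  | .terminal _ => True
  | .nonterminal (.X _ _) => True
  | _ => False

/-- the original symbol -/
def pr : Symbol T (NN T N ι M) → Option (Symbol T N)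
  | .terminal a => some (.terminal a)
  | .nonterminal (.X Y _) => some Y
  | _ => none

/-- the original word -/
def prw (w : List (Symbol T (NN T N ι M))) : List (Symbol T N) := w.filterMap pr

theorem prw_cl (c : Bool) (w : List (Symbol T N)) : prw (cl ι M c w) = w := by
  unfold prw cl
  induction w with
  | nil => rfl
  | cons a w ih =>
    rw [List.map_cons, List.filterMap_cons_some (f := pr) (b := a) rfl, ih]

theorem ok_cl (c : Bool) (w : List (Symbol T N)) : ∀ s ∈ cl ι M c w, Ok s := by
  intro s hs
  unfold cl at hs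
  obtain ⟨a, _, rfl⟩ := List.mem_map.1 hs
  trivial

theorem Ok.nc {s : Symbol T (NN T N ι M)} (h : Ok s) : NC s := by
  cases s with
  | terminal a => trivial
  | nonterminal A => cases A <;> first | trivial | exact h.elim

theorem mem_cl {c : Bool} {w : List (Symbol T N)} {s : Symbol T (NN T N ι M)}
    (h : s ∈ cl ι M c w) : ∃ Y, s = nt (.X Y c) := by
  unfold cl at h
  obtain ⟨a, _, rfl⟩ := List.mem_map.1 h
  exact ⟨a, rfl⟩

theorem D_notMem_cl (c : Bool) (w : List (Symbol T N)) :
    (nt .D : Symbol T (NN T N ι M)) ∉ cl ι M c w := by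
  intro h
  obtain ⟨Y, hY⟩ := mem_cl h
  simp at hY

variable (l r : ι → List (Symbol T N)) (S : N)

/-- the invariant for a control symbol and the rest -/
def I (K : NN T N ι M) (b : List (Symbol T (NN T N ι M))) : Prop :=
  match K with
  | .S => b = []
  | .C q c => ∃ u v, b = cl ι M (!c) u ++ cl ι M c v ∧ Re l r S (u ++ pend l q ++ v)
  | .G q Y q' c => De l q Y q' ∧ ((∃ u v, b = cl ι M (!c) u ++ cl ι M c v ∧
      Re l r S (u ++ pend l q ++ v)) ∨ ∃ u v, b = cl ι M (!c) u ++ nt .D ::
        (cl ι M (!c) (out r q Y q') ++ cl ι M c v) ∧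
        Re l r S (u ++ out r q Y q' ++ pend l q' ++ v))
  | .E q c => (∃ u v, b = cl ι M (!c) u ++ cl ι M c v ∧ Re l r S (u ++ pend l q ++ v)) ∨
      ∃ u o v, b = cl ι M (!c) u ++ nt .D :: (cl ι M (!c) o ++ cl ι M c v) ∧
        Re l r S (u ++ o ++ pend l q ++ v)
  | .F => (∀ s ∈ b, Ok s) ∧ Re l r S (prw b)
  | .D => False
  | .X _ _ => False

/-- the invariant -/
def Inv (α : List (Symbol T (NN T N ι M))) : Prop :=
  (∃ K b, α = nt K :: b ∧ I l r S K b) ∨ ((∀ s ∈ α, Ok s) ∧ Re l r S (prw α))

theorem nc_app (c d : Bool) (u v : List (Symbol T N)) :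
    ∀ s ∈ cl ι M c u ++ cl ι M d v, NC s := by
  intro s hs
  rcases List.mem_append.1 hs with h | h
  · exact (ok_cl _ _ _ h).nc
  · exact (ok_cl _ _ _ h).nc

theorem nc_app' (c d : Bool) (u o v : List (Symbol T N)) :
    ∀ s ∈ cl ι M c u ++ nt .D :: (cl ι M c o ++ cl ι M d v), NC s := by
  intro s hs
  rcases List.mem_append.1 hs with h | h
  · exact (ok_cl _ _ _ h).nc
  · rcases List.mem_cons.1 h with rfl | h
    · trivial
    · exact nc_app _ _ _ _ s h

variable {l r S}

theorem I.nc {K : NN T N ι M} {b : List (Symbol T (NN T N ι M))} (h : I l r S K b) :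
    ∀ s ∈ b, NC s := by
  cases K with
  | S => obtain rfl := (h : b = []); simp
  | C q c => obtain ⟨u, v, rfl, _⟩ := h; exact nc_app _ _ _ _
  | G q Y q' c =>
    obtain ⟨_, ⟨u, v, rfl, _⟩ | ⟨u, v, rfl, _⟩⟩ := h
    · exact nc_app _ _ _ _
    · exact nc_app' _ _ _ _ _
  | E q c =>
    obtain ⟨u, v, rfl, _⟩ | ⟨u, o, v, rfl, _⟩ := h
    · exact nc_app _ _ _ _
    · exact nc_app' _ _ _ _ _
  | F => exact fun s hs => (h.1 s hs).nc
  | D => exact h.elim
  | X Y c => exact h.elim

/-- the control symbol is the first one -/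
theorem ctl {α x y : List (Symbol T (NN T N ι M))} {A : NN T N ι M} (hI : Inv l r S α)
    (h : α = x ++ [nt A] ++ y) (hA : ¬ NC (nt A)) : x = [] ∧ I l r S A y := by
  rcases hI with ⟨K, b, rfl, hI⟩ | ⟨ho, _⟩
  · cases x with
    | nil =>
      simp only [List.nil_append, List.cons_append, List.cons.injEq, Symbol.nonterminal.injEq] at h
      obtain ⟨rfl, rfl⟩ := h
      exact ⟨rfl, hI⟩
    | cons a x =>
      exfalso
      simp only [List.cons_append, List.cons.injEq] at h
      exact hA (hI.nc _ (by rw [h.2]; simp))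
  · exact absurd (ho _ (by rw [h]; simp)).nc hA

/-- the control symbol is the given symbol on the left -/
theorem ctl' {α x y : List (Symbol T (NN T N ι M))} {A K : NN T N ι M} (hI : Inv l r S α)
    (h : α = x ++ [nt A] ++ y) (hK : ¬ NC (nt K)) (hx : nt K ∈ x) :
    ∃ x', x = nt K :: x' ∧ I l r S K (x' ++ nt A :: y) := by
  rcases hI with ⟨K', b, rfl, hI⟩ | ⟨ho, _⟩
  · cases x with
    | nil => simp at hx
    | cons a x =>
      simp only [List.cons_append, List.cons.injEq] at h
      obtain ⟨rfl, rfl⟩ := h
      rcases List.mem_cons.1 hx with h1 | h1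
      · simp only [Symbol.nonterminal.injEq] at h1
        subst h1
        exact ⟨x, rfl, by simpa using hI⟩
      · exact absurd (hI.nc _ (by simp [h1])) hK
  · exact absurd (ho _ (by rw [h]; simp [hx])).nc hK

theorem ne_of_col {c : Bool} {Y Z : Symbol T N} :
    (nt (.X Y (!c)) : Symbol T (NN T N ι M)) ≠ nt (.X Z c) := by
  intro h
  simp only [Symbol.nonterminal.injEq, NN.X.injEq] at h
  cases c <;> simp at h

variable [Finite T] [Finite N] [Finite ι]

theorem os_inv {α β : List (Symbol T (NN T N ι M))} (h : OS l r S α β) (hI : Inv l r S α) :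
    Inv l r S β := by
  obtain ⟨x, y, A, z, U, W, hα, rfl, ⟨hr, hU, hW⟩ | ⟨hr, hU, hW⟩⟩ := h
  · cases hr with
    | start =>
      obtain ⟨rfl, h1⟩ := ctl hI hα (fun h => h)
      obtain rfl : y = [] := h1
      exact Or.inl ⟨_, _, rfl, [], [.nonterminal S], rfl, .refl⟩
    | guess q Y q' c hd =>
      obtain ⟨rfl, u, v, h1, h2⟩ := ctl hI hα (fun h => h)
      exact Or.inl ⟨_, _, rfl, hd, Or.inl ⟨u, v, h1, h2⟩⟩
    | jump i j c hj =>
      obtain ⟨rfl, u, v, h1, h2⟩ := ctl hI hα (fun h => h)
      refine Or.inl ⟨_, _, rfl, u, v, h1, ?_⟩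
      simpa [pend, hj] using h2
    | rew q Y q' c =>
      obtain ⟨x', rfl, hd, h1⟩ := ctl' hI hα (K := .G q Y q' c) (fun h => h) (hU _ (by simp))
      have hW1 : ∀ s ∈ x', ¬ ∃ Z, s = (nt (.X Z c) : Symbol T (NN T N ι M)) := by
        rintro s hs ⟨Z, rfl⟩
        exact hW (.X Z c) (mem_Wc.2 (Or.inr ⟨Z, rfl⟩)) (by simp [hs])
      have hW2 : (nt .D : Symbol T (NN T N ι M)) ∉ x' := by
        intro hs
        exact hW .D (mem_Wc.2 (Or.inl rfl)) (by simp [hs])
      rcases h1 with ⟨u, v, h1, h2⟩ | ⟨u, v, h1, h2⟩
      · obtain ⟨e1, e2⟩ := first_uniq (fun s => ∃ Z, s = (nt (.X Z c) : Symbol T (NN T N ι M)))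
          hW1 (by
            rintro s hs ⟨Z, rfl⟩
            obtain ⟨Z', hZ'⟩ := mem_cl hs
            exact ne_of_col hZ'.symm) (by
            intro s hs
            exact mem_cl hs) ⟨Y, rfl⟩ h1
        cases v with
        | nil => simp [cl] at e2
        | cons Y' v =>
          simp only [cl, List.map_cons, List.cons.injEq, Symbol.nonterminal.injEq, NN.X.injEq,
            and_true] at e2
          obtain ⟨rfl, rfl⟩ := e2
          subst e1
          refine Or.inl ⟨.G q Y q' c, _, ?_, hd, Or.inr ⟨u, v, rfl, hd.re h2⟩⟩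
          simp [cl]
      · exfalso
        have := before_mark hW2 (by simp) h1
        obtain ⟨Z', hZ'⟩ := mem_cl this
        exact ne_of_col hZ'.symm
    | del q c =>
      obtain ⟨x', rfl, h1⟩ := ctl' hI hα (K := .E q c) (fun h => h) (hU _ (by simp))
      rcases h1 with ⟨u, v, h1, _⟩ | ⟨u, o, v, h1, h2⟩
      · exfalso
        have : (nt .D : Symbol T (NN T N ι M)) ∈ cl ι M (!c) u ++ cl ι M c v := by
          rw [← h1]; simp
        rcases List.mem_append.1 this with h | h
        · exact D_notMem_cl _ _ h
        · exact D_notMem_cl _ _ h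
      · obtain ⟨rfl, rfl⟩ := mark_uniq (D_notMem_cl _ _) (by
          intro h
          rcases List.mem_append.1 h with h | h
          · exact D_notMem_cl _ _ h
          · exact D_notMem_cl _ _ h) h1
        refine Or.inl ⟨.E q c, _, rfl, Or.inl ⟨u ++ o, v, ?_, by simpa using h2⟩⟩
        simp [cl]
    | toF c =>
      obtain ⟨rfl, u, v, h1, h2⟩ := ctl hI hα (fun h => h)
      refine Or.inl ⟨_, _, rfl, ?_, ?_⟩
      · intro s hs
        change s ∈ y at hs
        rw [h1] at hs
        rcases List.mem_append.1 hs with h | h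
        · exact ok_cl _ _ _ h
        · exact ok_cl _ _ _ h
      · change Re l r S (prw y)
        have e : prw y = u ++ v := by
          rw [h1]
          unfold prw
          rw [List.filterMap_append]
          exact congrArg₂ _ (prw_cl _ _) (prw_cl _ _)
        rw [e]
        simpa [pend] using h2
    | ter a c =>
      obtain ⟨x', rfl, h1, h2⟩ := ctl' hI hα (K := .F) (fun h => h) (hU _ (by simp))
      refine Or.inl ⟨.F, _, rfl, ?_, ?_⟩
      · intro s hs
        simp only [List.append_eq, List.mem_append, List.mem_singleton] at hs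
        rcases hs with (hs | rfl) | hs
        · exact h1 s (by simp [hs])
        · trivial
        · exact h1 s (by simp [hs])
      · have e : prw (x' ++ [Symbol.terminal a] ++ y) =
            prw (x' ++ (nt (.X (.terminal a) c) : Symbol T (NN T N ι M)) :: y) := by
          simp [prw, pr, List.filterMap_append, List.filterMap_cons]
        have e' : (x'.append [Symbol.terminal a]).append y = x' ++ [Symbol.terminal a] ++ y := rfl
        rw [e', e]
        exact h2
    | endF =>
      obtain ⟨rfl, h1, h2⟩ := ctl hI hα (fun h => h)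
      exact Or.inr ⟨by simpa using h1, by simpa using h2⟩
  · cases hr with
    | hand q Y q' c =>
      obtain ⟨rfl, hd, h1⟩ := ctl hI hα (fun h => h)
      rcases h1 with ⟨u, v, h1, _⟩ | ⟨u, v, h1, h2⟩
      · exfalso
        have : (nt .D : Symbol T (NN T N ι M)) ∈ cl ι M (!c) u ++ cl ι M c v := by
          rw [← h1]; exact hU _ (by simp)
        rcases List.mem_append.1 this with h | h
        · exact D_notMem_cl _ _ h
        · exact D_notMem_cl _ _ h
      · exact Or.inl ⟨_, _, rfl, Or.inr ⟨u, _, v, h1, h2⟩⟩
    | back q c =>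
      obtain ⟨rfl, h1⟩ := ctl hI hα (fun h => h)
      rcases h1 with ⟨u, v, h1, h2⟩ | ⟨u, o, v, h1, _⟩
      · exact Or.inl ⟨_, _, rfl, u, v, h1, h2⟩
      · exfalso
        exact hW .D (by simp) (by rw [h1]; simp)
    | swap c =>
      obtain ⟨rfl, u, v, h1, h2⟩ := ctl hI hα (fun h => h)
      cases v with
      | nil =>
        refine Or.inl ⟨_, _, rfl, [], u, ?_, by simpa [pend] using h2⟩
        simpa [cl] using h1
      | cons Y v =>
        exfalso
        exact hW (.X Y c) (mem_Xc.2 ⟨Y, rfl⟩) (by rw [h1]; simp [cl])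

theorem sound {w : List T}
    (h : ReflTransGen (OS (M := M) l r S) [nt .S] (w.map Symbol.terminal)) :
    Re l r S (w.map Symbol.terminal) := by
  have h2 : Inv l r S (w.map Symbol.terminal : List (Symbol T (NN T N ι M))) := by
    have : ∀ α, ReflTransGen (OS (M := M) l r S) [nt .S] α → Inv l r S α := by
      intro α hα
      induction hα with
      | refl => exact Or.inl ⟨.S, [], rfl, rfl⟩
      | tail _ h ih => exact os_inv h ih
    exact this _ h
  rcases h2 with ⟨K, b, h3, _⟩ | ⟨_, h3⟩
  · exfalso
    have : (nt K : Symbol T (NN T N ι M)) ∈ w.map Symbol.terminal := by rw [h3]; simp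
    simp at this
  · have e : prw (w.map Symbol.terminal : List (Symbol T (NN T N ι M))) =
        w.map Symbol.terminal := by
      unfold prw
      clear h3 h
      induction w with
      | nil => rfl
      | cons a w ih =>
        rw [List.map_cons, List.filterMap_cons_some (f := pr) (b := Symbol.terminal a) rfl,
          List.map_cons]
        rw [ih (fun s hs => by
          obtain ⟨b, _, rfl⟩ := List.mem_map.1 hs
          trivial)]
    rw [e] at h3
    exact h3

end

end Pool.Agent.V11232.RC
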